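import Mathlib
import Pool.Agent.KS6_11.F.Ell
import Pool.Graph.R_pool_sql_team_seeded_2aa45f1a.Q306.FG.Thms

/-!
# Étale cohomology of the complexes `ℤ^c(n)`, for the products of arbitrary schemes over finite fields with all
but few members of families of abelian varieties

Let `f i` (`i` in a set `ι`, finite or infinite) be monic polynomials, the characteristic polynomials of the
Frobenius endomorphisms of abelian varieties `A i` over the fields with `p ^ a i` elements, without
multiplicative relations between their roots other than those which come from duality (`NoRelations`): the groups
generated by the roots of the different `f i` are independent modulo powers of `p`, and in each `f i` any roots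
no two of which have the product `p ^ a i` are independent modulo powers of `p`; no root is supersingular. For example
(last two parts of the theorem):

* **ordinary elliptic curves**, over any finite fields of characteristic `p`, whose fields of complex multiplication
  are different from each other (no two of the curves are isogenous over an algebraic closure; these are infinitely
  many curves for each `p`, one for each imaginary quadratic field in which `p` splits, up to isogeny);
* simple abelian varieties of any dimension, with Weil numbers `π i` in CM fields `E i` all of whose powers generate
  `E i` (`IsWeilOne`), such that a number field `F` contains all conjugates of the maximal totally real subfields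
  of all `E i` (`ContainsReal`), each conjugate of `π i ^ 2 / p ^ a i` (`angle`) is a unit at all places above
  `p` outside one place of `F` (`AtOnePlace`; this is true for all numbers if `F` has only one place above
  `p`), and no power of a conjugate of one of these numbers is a power of a conjugate of another one
  (`Incommensurable`). For `F = ℚ` these are the elliptic curves.

Let `Λ` be **any** finite set of complex numbers, and let `R` be at least the rank of the multiplicative group
generated by `Λ`, modulo the numbers a power of which is a power of `p` (`RankModLe`). Then there is a set `S` of **at most `R`**
members of the family such that the following is true for all the others.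

Let `Z` be **any** separated scheme of finite type over the field with `Q = p ^ (b s)` elements whose Frobenius
eigenvalues are in `Λ`, or more generally are generated by `Λ` up to powers of `p` and up to roots, and let
`A` be any abelian variety over this field which is isogenous to a product of powers of members `A i` of the family with
`i ∉ S` and `a i ∣ b`. Suppose that the Frobenius endomorphism of `Z` satisfies on each group of motivic homology
of `A × Z` a nonzero polynomial whose roots have the same property (`RootsFrom`). (For instance the motive of
`Z` is built from finite-dimensional motives, in the sense of Kimura, of smooth projective varieties with this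
property.) **Then for every `n < 0` the groups `H^i((A × Z)_et, ℤ^c(n))` are finitely generated for all `i`
(question Q1 for `A × Z` and `n`) if and only if the groups `H^i(Z_et, ℤ^c(n'))` are finitely generated for all
`i` and all `n'` with `n - dim A ≤ n' ≤ n`** (`HomologyReduces`). In particular question Q1 for `A × Z` and all
`n < 0` is equivalent to question Q1 for `Z` and all `n < 0`. `Z` may be singular, reducible and not proper; no
resolution of singularities and no case of the conjectures of Tate, Beilinson and Parshin is assumed. If `Z` is smooth and
projective, of dimension `d`, the same is true for the groups with `i ≤ - 2 n + 1` (`CycleReduces`), for which the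
question is equivalent to the other finite generation conjectures in the problem file.

The models for the motivic homology of `Z` and `A × Z` (`RelData`, `IsTheory`, `IsPure`), for what is used of
`A` (`IsAbelian`: theorems of Weil, Tate and Kimura) and for the étale cohomology (`EtaleData`, `IsEtale`,
`FiniteTorsion`) are those of the starting files for this problem (`AllCMTypesTimes`, `AlmostAllTimes`).

Relation to other results (starting files and this problem). `AllCMTypesTimes`, `AlmostAllTimes` and `NewtonStrata` are about almost all abelian varieties (in the sense of densities, for `Z` of small Frobenius rank) or almost all CM types (for `Z` whose eigenvalues are unrelated to the fields of `A`), `OnePlaceTimes` (helper74 of this team) about the `A` supported at one place and the `Z` of smaller slopes or with foreign fields. Here `Z` is arbitrary and nothing is assumed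
about the relation between `Z` and `A`: the number of the members of the family to be omitted is bounded by the rank of the
group generated by the Frobenius eigenvalues of `Z`, and the family is explicit; if it is infinite, `A` runs through all
products of infinitely many varieties. For other questions (cycles in the sense of pole orders of zeta functions; for
instance MP_6a91c2_ag, MP_ee618e_ag, MP_c0b458_ag) the starting files have this for the families of curves of maximal
rank (`AllButFew...`), from which the linear algebra is taken.

The proof. Modulo the powers of `p` and up to roots the multiplicative group of the complex numbers is a vector space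
over `ℚ`. The roots of the `f i` span subspaces `W i` whose sum is direct, and `Λ` spans a subspace `V` of
dimension at most `R`. By the theorem on pivots, the intersection of `V` with the sum of the `W i`, `i` not in
`S`, is zero for a set `S` with at most `R` elements. If the product of a Frobenius eigenvalue of `Z` and of some
roots of the `f i`, `i` not in `S`, no two of which are dual to each other, is a power of `p`, then the product of the
roots is a power of `p` up to roots, by the choice of `S`; so there are no roots in the product, as there are no relations
in the family. For the abelian varieties at one place of `F` this is a theorem of helper5 of this team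
(`OnePlaceOfRealField`, MP_2a05c8_ag), which is used here for the powers of the Weil numbers of finitely many
members over a common field. The deduction of the theorem from the statement on relations is the one of the
starting files: the correspondence on `A` given by the
sum of the products of dual classes of divisor products acts as the identity on the motivic cohomology of
`A × Z`, so that the rational motivic homology of `A × Z` is the direct sum of the products of finitely many
products of divisors on `A` with that of `Z`; and a group with coefficients `ℤ^c(n)`, `n < 0`, is finitely
generated if and only if the rational group is zero. (The idea to play the eigenvalues of Frobenius off against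
nilpotence is due to Soulé, Geisser and Kahn.)
-/

set_option autoImplicit false

namespace Pool.Agent.Results.MP_e93a6a_ag.AllButFewTimes

open NumberField Polynomial Pool.Agent.KS6_5.SP Pool.Agent.KS6_11.F Pool.Agent.Y1.CT Pool.Agent.R919.FF
  Pool.Agent.Q64.L Pool.Agent.Q306.FG

/-- **Question Q1 for `A × Z` and `n` is question Q1 for `Z` and all `n - dim A ≤ n' ≤ n`, for arbitrary
`Z`** and the products `A` of members of a family without relations, except for at most `R` members, `R` the rank
of the Frobenius eigenvalues of `Z`; ordinary elliptic curves, and abelian varieties whose Frobenius numbers are supported
at one place of a field `F` containing all the real multiplications, have no relations. -/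
theorem result :
    (∀ (p : ℕ) [Fact p.Prime] (ι : Type) (a : ι → ℕ) (f : ι → ℤ[X]), NoRelations p a f →
      ∀ (Λ : Set ℂ) (R : ℕ), Λ.Finite → RankModLe p Λ R → ∃ S : Finset ι, S.card ≤ R ∧ ∀ b : ℕ, 0 < b →
        ∀ g : {i : ι // i ∉ S ∧ a i ∣ b} → ℤ[X], (∀ i, IsBaseChange (b / a i.1) (f i.1) (g i)) →
          HomologyReduces (RootsFrom p Λ) (p ^ b) g ∧ CycleReduces (RootsFrom p Λ) (p ^ b) g) ∧
    (∀ (p : ℕ) [Fact p.Prime] (ι : Type) (a : ι → ℕ) (t : ι → ℤ), (∀ i, 0 < a i) → (∀ i, ¬ (p : ℤ) ∣ t i) →
      (∀ i, t i ^ 2 < 4 * (p : ℤ) ^ a i) →
      (∀ i j, i ≠ j → ¬ IsSquare ((t i ^ 2 - 4 * (p : ℤ) ^ a i) * (t j ^ 2 - 4 * (p : ℤ) ^ a j))) →
      NoRelations p a fun i => ellPoly (p ^ a i) (t i)) ∧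
    (∀ (p : ℕ) [Fact p.Prime] (F : IntermediateField ℚ (AlgebraicClosure ℚ)) [FiniteDimensional ℚ F]
      (ι : Type) (a : ι → ℕ) (E : ι → Type) [∀ i, Field (E i)] [∀ i, NumberField (E i)] [∀ i, IsCMField (E i)]
      (π : ∀ i, E i), (∀ i, 0 < a i) → (∀ i, IsWeilOne p (a i) (π i)) → (∀ i, ContainsReal F (E i)) →
      (∀ i, AtOnePlace p F (angle p (a i) (π i))) → Incommensurable (fun i => angle p (a i) (π i)) →
      ∀ f : ι → ℤ[X], (∀ i, IsPolyOf (π i) (f i)) → NoRelations p a f) := by
  refine ⟨?_, ?_, ?_⟩
  · intro p hp ι a f hf Λ R hΛ hR
    obtain ⟨S, hS, h⟩ := few hp.out hf hΛ hR
    refine ⟨S, hS, fun b hb g hg => ?_⟩
    obtain ⟨hq, hG, hN⟩ := h b hb g hg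
    exact ⟨homologyReduces hq hG, cycleReduces hq hG⟩
  · intro p hp ι a t ha ht hb hD
    exact noRelations_ell hp.out ha ht hb hD
  · intro p _ F _ ι a E _ _ _ π ha hW hR hP hI f hf
    exact noRelations_onePlace ha hW hR hP hI hf

end Pool.Agent.Results.MP_e93a6a_ag.AllButFewTimes
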