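import Mathlib
import Pool.Agent.KS6_5.OG.Good
import Pool.Agent.KS6_5.OG.Elliptic
import Pool.Graph.R_pool_sql_team_seeded_2aa45f1a.Q306.FG.Thms

/-!
# Étale cohomology of the complexes `ℤ^c(n)`, for the products of arbitrary schemes over finite
fields with ordinary elliptic curves and abelian varieties over different real fields

Let `q = p ^ a`, and let `P k` (`k` in an arbitrary set, possibly infinite) be polynomials with
integral coefficients with the following properties (`IsOnePlaceFamily`), for instance
characteristic polynomials of Frobenius of abelian varieties over the field with `q` elements:

* their roots `z` have the absolute value `√q` and the slopes `1 / 2 + δ k` and `1 / 2 - δ k` only,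
  with `δ k > 0`; ordinary abelian varieties have `δ k = 1 / 2`;
* for some `m > 0` the number `z ^ m + (q / z) ^ m` is contained in a Galois extension of `ℚ` with
  one place above `p` and with cyclic Sylow `2`-subgroups of the Galois group: for example in a
  cyclic field in which `p` is inert or totally ramified. **This field may be different for
  different roots `z` and different `k`**, and nothing is assumed on its degree;
* for `δ k ≠ δ l` no power of `z ^ 2 / q` is a power of `z' ^ 2 / q`, for the roots `z` of `P k` and `z'`
  of `P l` (no condition if all `δ k` are equal, for instance in the ordinary case);
* `z z' / q` is not a root of unity different from one, for all roots `z`, `z'` of the `P k` (this is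
  true after a finite extension of the base field).

**The second part of the theorem: `P k = X ^ 2 - b k X + q` is such a family if `p` does not divide
`b k` and the imaginary quadratic fields `ℚ(√(b k ^ 2 - 4 q))` are different from each other.** So up
to isogeny and finite extensions of the base field `A` can be any product of any number of ordinary
elliptic curves. Other examples are ordinary abelian surfaces with real multiplication by quadratic
fields in which `p` does not split, ordinary abelian varieties such that the centre of the
endomorphism algebra over an algebraic closure is a quadratic extension of a cyclic field in which
`p` is inert, and all products of such abelian varieties and elliptic curves.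

Let `A` be an abelian variety over the field with `Q = q ^ s` elements which is isogenous to a
product of powers of abelian varieties coming from the field with `q` elements, with characteristic
polynomials `P k` (for `s = 1`: any product of powers of the abelian varieties), and let `Z` be **any** separated scheme of finite type over the field with `Q`
elements such that

* the eigenvalues `ρ` of Frobenius on the `ℓ`-adic cohomology of `Z` satisfy the
  following condition (`NarrowUnrelated`), where `w ≥ 0` is **any** real number:

  `SlopesInInterval`: the slopes of `ρ` with respect to `q` lie in an interval of length `w` (which
  depends on `ρ`); and

  `NoShortRelation`: there is no relation `(z 1 ⋯ z n) ^ m * ρ ^ N = q ^ c`, `m, N > 0`, with `n > 0`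
  roots `z i` of polynomials `P (k i)` no two of which have the product `q`, and with
  `∑ (2 δ (k i)) ^ 2 ≤ w ^ 2`. If `A` is ordinary the last condition is `n ≤ w ^ 2`.

  If `w < 2 δ k` for all `k` there are no such products and `NoShortRelation` is no condition (third
  part of the theorem): if `A` is a product of ordinary elliptic curves all `Z` are allowed such
  that the slopes of each eigenvalue and its conjugates lie in an interval of length less than one,
  without any condition on fields. If `A` is ordinary and `w = 1`, as for curves, `K3` surfaces of
  height two and so on, only `n = 1` remains: no eigenvalue of Frobenius of `Z` is an eigenvalue of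
  Frobenius of `A`, up to roots of unity and powers of `q` (for a curve: no factor of `A` is
  isogenous to a factor of the Jacobian, over an algebraic closure). **In general, although `A` can
  have any number of factors, only products of at most `w ^ 2` of the numbers `z i` have to be
  compared with the eigenvalues of `Z`**; and `w` is at most the dimension of `Z`.
* the Frobenius endomorphism of `Z` satisfies on each group of motivic homology of `A × Z` a
  nonzero polynomial with rational coefficients whose roots have the same property. For instance
  this is so if the motive of `Z` is built from finite-dimensional motives (Kimura) of smooth
  projective varieties which satisfy the first condition.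

**For every `n < 0` the groups `H^i((A × Z)_et, ℤ^c(n))` are finitely generated for all `i`
(question Q1 for `A × Z` and `n`) if and only if the groups `H^i(Z_et, ℤ^c(n'))` are finitely
generated for all `i` and all `n'` with `n - dim A ≤ n' ≤ n`** (`HomologyReduces`). In particular
question Q1 for `A × Z` and all `n < 0` is equivalent to question Q1 for `Z` and all `n < 0`. `Z`
may be singular, reducible and not proper; no resolution of singularities and no case of the
conjectures of Tate, Beilinson and Parshin is assumed. If `Z` is smooth and projective, of dimension
`d`, the same is true for the groups with `i ≤ - 2 n + 1` (`CycleReduces`), for which the question is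
equivalent to the other finite generation conjectures in the problem file.

What is used of `A` are known theorems (`IsAbelian`): `H(A)` is generated by `H^1`, Frobenius is
diagonalizable on `H^1` (Weil), the theorem of Tate on divisors, and the nilpotence of
homologically trivial correspondences (Kimura). The motivic (Borel-Moore) homology with rational
coefficients of `Z` and of `A × Z` is modelled by `RelData`, with the formal properties in
`IsTheory`: degrees, products with classes on `A`, push-forward to `Z`, the projection formula,
the operation of the correspondences of `A` and of the Frobenius endomorphism of `Z`. The groups
are numbered as follows: `H^i(Z, ℚ^c(n))` has the bidegree `(i, - n)`, and `H^i(A × Z, ℚ^c(n))`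
has the bidegree `(i + 2 dim A, dim A - n)`; so the product with a class of codimension `c` on `A`
has the bidegree `(2 c, c)`. The operator `frobN`, `frobM` is the inverse of the push-forward by
the Frobenius endomorphism of `Z`; then the Frobenius endomorphism of `A × Z` is the
multiplication by `Q ^ j` in the bidegree `(i, j)` (`IsPure`). The groups with coefficients
`ℤ^c(n)` and `ℚ/ℤ^c(n)` belong to the long exact sequences of `0 → ℤ^c(n) → ℚ^c(n) → ℚ/ℤ^c(n) → 0`
(`EtaleData`, `IsEtale`). It is known that `H^i(X_et, ℚ/ℤ^c(n))` is finite for `n < 0` and all
separated schemes `X` of finite type over a finite field (`FiniteTorsion`): there is no
`p`-primary part, and the other parts are dual to the cohomology with compact supports and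
coefficients `ℤ_l(n)`, of weights at least `- 2 n > 0` (Deligne, Gabber, de Jong).

Relation to other results. In the starting files (`AllCMTypesTimes`, `NewtonStrata`,
`SmallSlopeDeviation` and others on this problem) the factors of `A` are almost all CM types, almost
all abelian varieties, or have absolutely irreducible and mutually unrelated fields, and `Z` is
unrelated to them. In `OnePlaceTimes` (helper74, this problem; arithmetic by helper5) all real
multiplications are contained in **one** field `F` with one place above `p` in question (so `F = ℚ`
for elliptic curves), and each eigenvalue of `Z` does not generate the fields over `F`, or has slopes
in an interval of length less than one (`A` ordinary). Here the real fields are different, and in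
general no field containing two of them has only one place above `p`: there is no group of
automorphisms which acts on all numbers by signs. For example `A` can be any product of ordinary
elliptic curves and of ordinary abelian surfaces with real multiplications by different quadratic
fields in which `p` is inert. The condition on `Z` is also different: the slopes are arbitrary, and
`NoShortRelation` is not only sufficient but also necessary for the absence of relations, as all
relations are short.

The proof. (1) The logarithms of the absolute values of the conjugates of `x = z ^ 2 / q` define a
function `F₁` with values `± 1` on the Galois group `G` of the algebraic numbers. If the field `F` of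
`x` has one place above `p` then `G = D H₁`, where `F₁` is invariant on the left by the decomposition
group `D`, and multiplied by a sign under the right translations by the elements of the normal
subgroup `H₁` of the automorphisms over `F`. Let `F₂`, `H₂` belong to another number `y`. Then
`B(h', h) = P(h' h) P(h') P(h) P(1)`, with `P = F₁ F₂`, is given by the commutator of `H₁` and `H₂`. It
is a bilinear form on `H₁ / (H₁ ∩ H₂)` with `B(h, h) = 1`, unless `P` changes its sign under a right
translation by a square; so it is trivial if the Sylow `2`-subgroups are cyclic. Hence `P` is
constant or changes its sign under some right translation: the functions of slopes of `x` and `y`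
are proportional or orthogonal to each other. If they are proportional, the numbers are equal or
inverse to each other up to roots of unity. (2) Suppose that the product of `ρ` and of `n` roots
`z i`, no two of them with product `q`, is a power of `q`, up to a root of unity. Then the mean
square of the sum of the functions of slopes of the `z i ^ 2 / q` is at least `∑ (2 δ (k i)) ^ 2`, and
at most `w ^ 2`, as this sum is also, up to a constant, twice the function of slopes of `ρ`. So the
relation is short, and excluded. (3) The
deduction of the theorem from the statement on relations is the one of the starting files
(`AllCMTypesTimes`): the correspondence on `A` given by the sum of the products of dual classes of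
divisor products acts as the identity on the motivic cohomology of `A × Z`, so that the rational
motivic homology of `A × Z` is the direct sum of the products of finitely many products of divisors
on `A` with that of `Z`; and a group with coefficients `ℤ^c(n)`, `n < 0`, is finitely generated if
and only if the rational group is zero. (The idea to play the eigenvalues of Frobenius off against
nilpotence is due to Soulé, Geisser and Kahn.)
-/

set_option autoImplicit false

namespace Pool.Agent.Results.MP_e93a6a_ag.DifferentFieldsTimes

open Polynomial Pool.Agent.KS6_5.OC Pool.Agent.KS6_5.OG Pool.Agent.Y1.CT
  Pool.Agent.Q64.L Pool.Agent.Q306.FG

/-- **Question Q1 for `A × Z` and `n` is question Q1 for `Z` and all `n - dim A ≤ n' ≤ n`, for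
arbitrary `Z`**, for the abelian varieties `A` with two slopes
`1 / 2 ± δ k` whose real fields, which may be different, have one place above `p`, for instance for all
products of ordinary elliptic curves, and all `Z` whose
Frobenius eigenvalues have slopes in an interval of length `w` and no relations with products of
few eigenvalues of Frobenius of `A` (none at all are to be considered for `w < 2 δ k`). -/
theorem result :
    (∀ (p : ℕ) [Fact p.Prime] (a : ℕ), 0 < a → ∀ (κ : Type) (δ : κ → ℝ) (P : κ → ℤ[X]),
      IsOnePlaceFamily p a δ P → ∀ w : ℝ, 0 ≤ w →
      HomologyReduces (NarrowUnrelated p a w δ P) (p ^ a) P ∧
        CycleReduces (NarrowUnrelated p a w δ P) (p ^ a) P) ∧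
    (∀ (p : ℕ) [Fact p.Prime] (a : ℕ), 0 < a → ∀ (κ : Type) (b : κ → ℤ),
      (∀ k, ¬ (p : ℤ) ∣ b k) → (∀ k, b k ^ 2 < 4 * (p ^ a : ℕ)) →
      (∀ k l, b k = b l ∨ ¬ IsSquare ((b k ^ 2 - 4 * (p ^ a : ℕ)) * (b l ^ 2 - 4 * (p ^ a : ℕ)))) →
      IsOnePlaceFamily p a (fun _ : κ => 1 / 2)
        (fun k => X ^ 2 - C (b k) * X + C (((p ^ a : ℕ) : ℤ)))) ∧
    (∀ (q : ℕ) (κ : Type) (δ : κ → ℝ) (P : κ → ℤ[X]) (w : ℝ), 0 ≤ w → (∀ k, w < 2 * δ k) →
      ∀ ρ : AlgebraicClosure ℚ, NoShortRelation q w δ P ρ) := by
  refine ⟨?_, ?_, ?_⟩
  · intro p _ a ha κ δ P H w hw
    have hq : 1 < p ^ a := Nat.one_lt_pow ha.ne' (Fact.out : p.Prime).one_lt
    exact ⟨homologyReduces hq (good_family ha H hw), cycleReduces hq (good_family ha H hw)⟩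
  · intro p _ a ha κ b hb hd h
    exact ell_family ha b hb hd h
  · intro q κ δ P w hw h ρ
    exact noShortRelation_of_lt hw h ρ

end Pool.Agent.Results.MP_e93a6a_ag.DifferentFieldsTimes
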