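import Mathlib
import Pool.Agent.KS6_74.OP.Good
import Pool.Agent.KS6_5.SP.Place
import Pool.Graph.R_pool_sql_team_seeded_2aa45f1a.Q306.FG.Thms

/-!
# Étale cohomology of the complexes `ℤ^c(n)`, for the products of arbitrary schemes over finite
fields with abelian varieties whose Frobenius numbers are supported at one place

Let `F` be a number field, `q = p ^ a`, and let `π i` (`i` in a finite set) be Weil numbers for `q`
of weight one in CM fields `E i`, all of whose powers generate `E i` (`IsWeilOne`), such that

* `F` contains all conjugates of the maximal totally real subfields of the `E i` (`ContainsReal`);
* each conjugate of `α i = π i ^ 2 / q` (`angle`) is a unit at all places above `p` except for those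
  above **one** place of `F` (`AtOnePlace`). This is true for all numbers if `F` has only one place
  above `p`, for example if `p` is inert or totally ramified in `F` (second part of the theorem). It
  is also true, for all `p`, if `α i` is a unit except at the two places above one place of degree
  one of a Galois real field;
* no power of a conjugate of `α i` is equal to a power of a conjugate of `α j`, for `i ≠ j`
  (`Incommensurable`). (Otherwise one omits one of the `π i`, up to isogeny and base change.)

Nothing is assumed about the Galois groups, the fields may be equal to each other, and all slopes
occur; the slopes may be equal to `1 / 2` at some, but not all, places. Let `f i` be monic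
polynomials whose complex roots are conjugates of `π i` (`IsPolyOf`), for instance the
characteristic polynomials of Frobenius of the abelian varieties in the isogeny classes of the
`π i` over the field with `q` elements. Let `A` be an abelian variety over the field with
`Q = q ^ s` elements which is isogenous to a product of powers of abelian varieties coming from the
field with `q` elements, with characteristic polynomials `f i` (for `s = 1`: any product of powers of
simple abelian varieties with Weil numbers `π i`), and let `Z` be **any** separated scheme of finite type over the field with `Q`
elements such that

* the eigenvalues `ρ` of Frobenius on the `ℓ`-adic cohomology of `Z` satisfy for all `i` one of the two conditions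
  (`ForeignOrSmallRoots`):

  `NotOver`: for some `m > 0` the field `F(ρ ^ m)` contains no conjugate of `E i`; **or**

  `SmallerSlopes`: there is a number `c` with `|log |ρ| - c| < |log |α|| / 2` for all `p`-adic
  absolute values of the conjugates of `ρ` and all absolute values `≠ 1` of the conjugates `α` of
  `α i`. For `s = 1` this means `|v - c'| < |v' - 1 / 2|` for all slopes `v` of the conjugates of `ρ`
  and all slopes `v' ≠ 1 / 2` of `π i`: if `A` is ordinary, then the slopes of `ρ` lie in an interval
  of length less than one. So all `ρ` are allowed which are powers of `q`, up to roots of unity, and
  those of `K3` surfaces of height at least three, of abelian varieties with slopes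
  different from `0` and `1`, and so on. There is no condition on the fields `ℚ(ρ)`.
* the Frobenius endomorphism of `Z` satisfies on each group of motivic homology of `A × Z` a
  nonzero polynomial with rational coefficients whose roots have the same property. For instance
  this is so if the motive of `Z` is built from finite-dimensional motives (Kimura) of smooth
  projective varieties which satisfy the first condition.

**For every `n < 0` the groups `H^i((A × Z)_et, ℤ^c(n))` are finitely generated for all `i`
(question Q1 for `A × Z` and `n`) if and only if the groups `H^i(Z_et, ℤ^c(n'))` are finitely
generated for all `i` and all `n'` with `n - dim A ≤ n' ≤ n`** (`HomologyReduces`). In particular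
question Q1 for `A × Z` and all `n < 0` is equivalent to question Q1 for `Z` and all `n < 0`. `Z`
may be singular, reducible and not proper; no resolution of singularities and no case of the
conjectures of Tate, Beilinson and Parshin is assumed. If `Z` is smooth and projective, of dimension
`d`, the same is true for the groups with `i ≤ - 2 n + 1` (`CycleReduces`), for which the question is
equivalent to the other finite generation conjectures in the problem file.

What is used of `A` are known theorems (`IsAbelian`): `H(A)` is generated by `H^1`, Frobenius is
diagonalizable on `H^1` (Weil), the theorem of Tate on divisors, and the nilpotence of
homologically trivial correspondences (Kimura). The motivic (Borel-Moore) homology with rational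
coefficients of `Z` and of `A × Z` is modelled by `RelData`, with the formal properties in
`IsTheory`: degrees, products with classes on `A`, push-forward to `Z`, the projection formula,
the operation of the correspondences of `A` and of the Frobenius endomorphism of `Z`. The groups
are numbered as follows: `H^i(Z, ℚ^c(n))` has the bidegree `(i, - n)`, and `H^i(A × Z, ℚ^c(n))`
has the bidegree `(i + 2 dim A, dim A - n)`; so the product with a class of codimension `c` on `A`
has the bidegree `(2 c, c)`. The operator `frobN`, `frobM` is the inverse of the push-forward by
the Frobenius endomorphism of `Z`; then the Frobenius endomorphism of `A × Z` is the
multiplication by `Q ^ j` in the bidegree `(i, j)` (`IsPure`). The groups with coefficients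
`ℤ^c(n)` and `ℚ/ℤ^c(n)` belong to the long exact sequences of `0 → ℤ^c(n) → ℚ^c(n) → ℚ/ℤ^c(n) → 0`
(`EtaleData`, `IsEtale`). It is known that `H^i(X_et, ℚ/ℤ^c(n))` is finite for `n < 0` and all
separated schemes `X` of finite type over a finite field (`FiniteTorsion`): there is no
`p`-primary part, and the other parts are dual to the cohomology with compact supports and
coefficients `ℤ_l(n)`, of weights at least `- 2 n > 0` (Deligne, Gabber, de Jong).

Relation to other results (starting files). `AllCMTypesTimes`, `AlmostAllTimes`, `NewtonStrata` and
others (this problem) are about almost all CM types, almost all abelian varieties, generic fields,
and other factors `Z` whose eigenvalues are unrelated to the fields `E i`. The class of `A` here is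
different: explicit, for each single abelian variety, without conditions on the Galois groups and
on the multiplicities of the slopes; and so is the class of `Z`, whose fields may be the same.

The proof. Suppose that the product of `ρ` and of some conjugates of the `π i`, no two of them
complex conjugate, is a power of `q`, up to a root of unity. Let `S` be the group of the
automorphisms which fix all elements of `F`. It acts on the conjugates of `E i` through signs:
`h σ = σ` or `h σ` is the complex conjugate of `σ`. We fix one of the conjugates in the relation,
`x = σ (α i)`, and a place where it is not a unit, and take the average of the logarithms of the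
relation at this place and its images under `S`, with the sign character of `x`. Only the conjugates
`y = τ (α j)` with the same sign character remain. If `y` is not a unit at the given place either,
then both `x` and `y` are units except above the same place of `F`; as `S` permutes the places above
it transitively and acts through the same signs, `log |y|` is proportional to `log |x|` at all
places. The factor is rational, so that a power of `y` is a power of `x` or of its conjugate; this
is excluded for `j ≠ i`, and for `j = i` the factor is `± 1` and `τ` is `σ` or its conjugate, because
the powers generate `E i`. So only the difference of the exponents of `x` and its conjugate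
remains. It vanishes because the contribution of `ρ` is averaged out (`NotOver`) or is too small
(`SmallerSlopes`). This part is due to helper5 of this team (`OnePlaceOfRealField`,
MP_2a05c8_ag), where it is applied to the Tate conjecture. The
deduction of the theorem from the statement on relations is the one of the starting files
(`AllCMTypesTimes`): the correspondence on `A` given by the sum of the products of dual classes of
divisor products acts as the identity on the motivic cohomology of `A × Z`, so that the rational
motivic homology of `A × Z` is the direct sum of the products of finitely many products of divisors
on `A` with that of `Z`; and a group with coefficients `ℤ^c(n)`, `n < 0`, is finitely generated if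
and only if the rational group is zero. (The idea to play the eigenvalues of Frobenius off against
nilpotence is due to Soulé, Geisser and Kahn.)
-/

set_option autoImplicit false

namespace Pool.Agent.Results.MP_e93a6a_ag.OnePlaceTimes

open NumberField Polynomial Pool.Agent.KS6_5.SP Pool.Agent.KS6_74.OP Pool.Agent.Y1.CT
  Pool.Agent.Q64.L Pool.Agent.Q306.FG

/-- **Question Q1 for `A × Z` and `n` is question Q1 for `Z` and all `n - dim A ≤ n' ≤ n`, for
arbitrary `Z`**, for the abelian varieties `A` whose Frobenius numbers are supported at one place of
a field `F` containing all the real multiplications, and all `Z` whose Frobenius eigenvalues have
smaller slopes or do not generate the fields `E i` over `F`. -/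
theorem result :
    (∀ (p : ℕ) [Fact p.Prime] (a : ℕ), 0 < a → ∀ (F : IntermediateField ℚ (AlgebraicClosure ℚ))
      [FiniteDimensional ℚ F] (I : Type) [Fintype I] (E : I → Type)
      [∀ i, Field (E i)] [∀ i, NumberField (E i)] [∀ i, IsCMField (E i)] (π : ∀ i, E i),
      (∀ i, IsWeilOne p a (π i)) → (∀ i, ContainsReal F (E i)) →
      (∀ i, AtOnePlace p F (angle p a (π i))) → Incommensurable (fun i => angle p a (π i)) →
      ∀ f : I → ℤ[X], (∀ i, IsPolyOf (π i) (f i)) →
      HomologyReduces (ForeignOrSmallRoots p a F π) (p ^ a) f ∧
        CycleReduces (ForeignOrSmallRoots p a F π) (p ^ a) f) ∧
    (∀ (p : ℕ) [Fact p.Prime] (F : IntermediateField ℚ (AlgebraicClosure ℚ))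
      [FiniteDimensional ℚ F], (∃! P : Ideal (𝓞 F), P.IsPrime ∧ (p : 𝓞 F) ∈ P) →
      ∀ (E : Type) [Field E] (α : E), AtOnePlace p F α) := by
  refine ⟨?_, ?_⟩
  · intro p _ a ha F _ I _ E _ _ _ π hW hR hP hI f hf
    have hq : 1 < p ^ a := Nat.one_lt_pow ha.ne' (Fact.out : p.Prime).one_lt
    have hG := good_onePlace (F := F) ⟨hW, hR, hP, hI⟩ hf
    exact ⟨homologyReduces hq hG, cycleReduces hq hG⟩
  · intro p _ F _ h E _ α
    exact atOnePlace_of_unique F h α

end Pool.Agent.Results.MP_e93a6a_ag.OnePlaceTimes
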