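import Mathlib
import Pool.Agent.KS6_5.OF.Crit
import Pool.Graph.R_pool_sql_team_seeded_2aa45f1a.Q306.FG.Thms

/-!
# Étale cohomology of the complexes `ℤ^c(n)`, for the products of arbitrary schemes over finite
fields with abelian varieties separated by sign changes, with arbitrary Newton polygons

Let `q = p ^ a`, and let `P k` (`k` in an arbitrary set, possibly infinite) be monic irreducible
polynomials with integral coefficients with the following properties (`IsSeparatedFamily`), for
instance the minimal polynomials of the Frobenius endomorphisms of simple abelian varieties over
the field with `q` elements. **The Newton polygons are arbitrary**, but not all slopes are `1 / 2`.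

* the roots `z` of `P k` have the absolute value `√q`, and `(2 δ k) ^ 2 > 0` is at most the mean
  value of `(2 s - 1) ^ 2` over all slopes `s` of `P k`; so one can take `δ k = 1 / 2` for ordinary
  abelian varieties, and `(2 δ k) ^ 2 = f / g` for the dimension `g` and `p`-rank `f`;
* any two roots `z`, `z'` of the polynomials are **separated** (`Separated`): they are equal or have
  the product `q`, up to a root of unity, or **some** automorphism of the field of algebraic numbers
  fixes a power of one of them and maps a power of the other one to its complex conjugate;
* `z z' / q` is not a root of unity different from one, for all roots `z`, `z'` of the `P k` (this is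
  true after a finite extension of the base field).

**The second part of the theorem is a criterion**: the last two conditions are satisfied if over the
field `ℚ(z)` generated by any root `z` of `P k` the polynomial `P k` is the product of `X - z`,
`X - q / z` and an irreducible polynomial (or `P k` is quadratic), and for `k ≠ l` one of the
polynomials `P k`, `P l` is irreducible over the fields generated by the roots of the other one; in
other words, the automorphisms which fix `z` permute the other roots of `P k` transitively
(`TransitiveOnOthers`, without `q / z`), and the roots of `P l` (`TransitiveOver`), or conversely. So it
is sufficient that the Galois group of `P k` is the group of all permutations of the roots which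
respect the pairs `{z, q / z}` (for almost all abelian varieties in the usual families, Chavdarov
and Kowalski), or any subgroup with only three orbits on pairs of roots, and that the fields of `P k`
and `P l` are linearly disjoint, or only one of them over the other in the sense above: **there is no
condition on three or more of the fields**.

**The third part: `P k = X ^ 2 - b k X + q` is such a family if `p` does not divide `b k` and the
imaginary quadratic fields `ℚ(√(b k ^ 2 - 4 q))` are different from each other.**

Let `A` be an abelian variety over the field with `Q = q ^ s` elements which is isogenous to a
product of powers of abelian varieties coming from the field with `q` elements, with Frobenius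
eigenvalues among the roots of the `P k` (for `s = 1`: any product of powers of the simple abelian
varieties), and let `Z` be **any** separated scheme of finite type over the field with `Q`
elements such that

* the eigenvalues `ρ` of Frobenius on the `ℓ`-adic cohomology of `Z` satisfy the
  following condition (`NarrowUnrelated`), where `w ≥ 0` is **any** real number:

  `SlopesInInterval`: the slopes of `ρ` with respect to `q` lie in an interval of length `w` (which
  depends on `ρ`); and

  `NoShortRelation`: there is no relation `(z 1 ⋯ z n) ^ m * ρ ^ N = q ^ c`, `m, N > 0`, with `n > 0`
  roots `z i` of polynomials `P (k i)` no two of which have the product `q`, and with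
  `∑ (2 δ (k i)) ^ 2 ≤ w ^ 2`.

  If `w < 2 δ k` for all `k` there are no such products and `NoShortRelation` is no condition
  (fourth part of the theorem): **all `Z` are allowed such that the slopes of each eigenvalue and
  its conjugates lie in an interval of length less than `2 δ`, without any condition on fields**; for
  ordinary `A` this is an interval of length less than one, in general `2 δ` is the square root of
  the mean value of `(2 s - 1) ^ 2` over the slopes of the simple factors of `A`. For larger `w` only
  products of few of the numbers `z i` have to be compared with the eigenvalues of `Z`, although `A`
  can have any number of factors, of any dimension; `w` is at most the dimension of `Z`.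
* the Frobenius endomorphism of `Z` satisfies on each group of motivic homology of `A × Z` a
  nonzero polynomial with rational coefficients whose roots have the same property. For instance
  this is so if the motive of `Z` is built from finite-dimensional motives (Kimura) of smooth
  projective varieties which satisfy the first condition.

**For every `n < 0` the groups `H^i((A × Z)_et, ℤ^c(n))` are finitely generated for all `i`
(question Q1 for `A × Z` and `n`) if and only if the groups `H^i(Z_et, ℤ^c(n'))` are finitely
generated for all `i` and all `n'` with `n - dim A ≤ n' ≤ n`** (`HomologyReduces`). In particular
question Q1 for `A × Z` and all `n < 0` is equivalent to question Q1 for `Z` and all `n < 0`. `Z`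
may be singular, reducible and not proper; no resolution of singularities and no case of the
conjectures of Tate, Beilinson and Parshin is assumed. If `Z` is smooth and projective, of dimension
`d`, the same is true for the groups with `i ≤ - 2 n + 1` (`CycleReduces`), for which the question is
equivalent to the other finite generation conjectures in the problem file.

What is used of `A` are known theorems (`IsAbelian`): `H(A)` is generated by `H^1`, Frobenius is
diagonalizable on `H^1` (Weil), the theorem of Tate on divisors, and the nilpotence of
homologically trivial correspondences (Kimura). The motivic (Borel-Moore) homology with rational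
coefficients of `Z` and of `A × Z` is modelled by `RelData`, with the formal properties in
`IsTheory`: degrees, products with classes on `A`, push-forward to `Z`, the projection formula,
the operation of the correspondences of `A` and of the Frobenius endomorphism of `Z`. The groups
are numbered as follows: `H^i(Z, ℚ^c(n))` has the bidegree `(i, - n)`, and `H^i(A × Z, ℚ^c(n))`
has the bidegree `(i + 2 dim A, dim A - n)`; so the product with a class of codimension `c` on `A`
has the bidegree `(2 c, c)`. The operator `frobN`, `frobM` is the inverse of the push-forward by
the Frobenius endomorphism of `Z`; then the Frobenius endomorphism of `A × Z` is the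
multiplication by `Q ^ j` in the bidegree `(i, j)` (`IsPure`). The groups with coefficients
`ℤ^c(n)` and `ℚ/ℤ^c(n)` belong to the long exact sequences of `0 → ℤ^c(n) → ℚ^c(n) → ℚ/ℤ^c(n) → 0`
(`EtaleData`, `IsEtale`). It is known that `H^i(X_et, ℚ/ℤ^c(n))` is finite for `n < 0` and all
separated schemes `X` of finite type over a finite field (`FiniteTorsion`): there is no
`p`-primary part, and the other parts are dual to the cohomology with compact supports and
coefficients `ℤ_l(n)`, of weights at least `- 2 n > 0` (Deligne, Gabber, de Jong).

Relation to other results. In the library (`AllCMTypesTimes`, `NewtonStrata`,
`SmallSlopeDeviation` on this problem, `SeparatedSigns` and `SeparatedByClosures` on others) there are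
many theorems on the relations between the eigenvalues of `A` itself, under conditions on the CM
fields, their Galois closures and the CM types of the finitely many factors; there `Z` is unrelated
to the CM fields of `A`, by a condition on the representations of the Galois group (functions on the
embeddings which are invariant under the automorphisms fixing an eigenvalue vanish), and it is
needed for all `Z`, however small their slopes. Here the eigenvalues of `Z` may lie in the fields of
`A`; what is excluded are only short relations, which are really obstructions. In `OnePlaceTimes`
(helper74), `AllButFewTimes` (helper11) and `DifferentFieldsTimes` (helper5, this problem)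
the abelian varieties have two slopes and real fields with one place above `p`, or a few bad factors
which are small compared with the rest. There is no condition on the decomposition of `p` and on the
Newton polygon here; the method is different, and only pairs of roots have to be considered.

The proof. (1) For an embedding `l` of the field of algebraic numbers into the algebraic closure of
the field of `p`-adic numbers let `F_z (l)` be the logarithm of the absolute value of
`l (z ^ 2 / q)`. If the automorphism `g` fixes a power of `z` and conjugates a power of `z'` then the
translation by `g` preserves `F_z` and changes the sign of `F_z'`: **so `F_z` and `F_z'` are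
orthogonal to each other** for the mean value over all `l` (over a finite quotient of the Galois
group). The mean value of `F_z ^ 2` is the one over the slopes of `P k`, at least
`(2 δ k log q) ^ 2`, as the Galois group is transitive on the roots. (2) Suppose that the product of
`ρ` and of `n` roots `z i`, no two of them with product `q`, is a power of `q`, up to a root of unity.
Then the mean square of `∑ F_(z i)` is at least `∑ (2 δ (k i) log q) ^ 2`, as the products of two
terms have mean value zero, or are squares; and it is at most `(w log q) ^ 2`, as this sum is also,
up to a constant, twice the function of slopes of `ρ`, and odd for the complex conjugation. So the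
relation is short, and excluded. (3) The
deduction of the theorem from the statement on relations is the one of the starting files
(`AllCMTypesTimes`): the correspondence on `A` given by the sum of the products of dual classes of
divisor products acts as the identity on the motivic cohomology of `A × Z`, so that the rational
motivic homology of `A × Z` is the direct sum of the products of finitely many products of divisors
on `A` with that of `Z`; and a group with coefficients `ℤ^c(n)`, `n < 0`, is finitely generated if
and only if the rational group is zero. (The idea to play the eigenvalues of Frobenius off against
nilpotence is due to Soulé, Geisser and Kahn.)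
-/

set_option autoImplicit false

namespace Pool.Agent.Results.MP_e93a6a_ag.SeparatedByFlipsTimes

open Polynomial Pool.Agent.KS6_5.OC Pool.Agent.KS6_5.OG Pool.Agent.KS6_5.OF Pool.Agent.Y1.CT
  Pool.Agent.Q64.L Pool.Agent.Q306.FG

/-- **Question Q1 for `A × Z` and `n` is question Q1 for `Z` and all `n - dim A ≤ n' ≤ n`, for
arbitrary `Z`**, for the abelian varieties `A`, with
arbitrary Newton polygons, such that any two eigenvalues of Frobenius are separated by an
automorphism which fixes one of them and conjugates the other one, and all `Z`
whose Frobenius eigenvalues have slopes in an interval of length `w` and no relations with products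
of few eigenvalues of Frobenius of `A` (none at all are to be considered for `w < 2 δ k`, `(2 δ k) ^ 2`
the mean value of `(2 s - 1) ^ 2` over the slopes `s`). -/
theorem result :
    (∀ (p : ℕ) [Fact p.Prime] (a : ℕ), 0 < a → ∀ (κ : Type) (δ : κ → ℝ) (P : κ → ℤ[X]),
      IsSeparatedFamily p a δ P → ∀ w : ℝ, 0 ≤ w →
      HomologyReduces (NarrowUnrelated p a w δ P) (p ^ a) P ∧
        CycleReduces (NarrowUnrelated p a w δ P) (p ^ a) P) ∧
    (∀ (p : ℕ) [Fact p.Prime] (a : ℕ), 0 < a → ∀ (κ : Type) (δ : κ → ℝ) (P : κ → ℤ[X]),
      (∀ k, 0 < δ k) → (∀ k, (P k).Monic) → (∀ k, Irreducible (P k)) →
      (∀ (k : κ) (z : AlgebraicClosure ℚ), aeval z (P k) = 0 →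
        ∀ φ : AlgebraicClosure ℚ →+* ℂ, ‖φ z‖ ^ 2 = (p ^ a : ℕ)) →
      (∀ k, ((P k).natDegree : ℝ) * (2 * δ k) ^ 2 ≤ (((P k).aroots (PadicAlgCl p)).map fun y =>
        (2 * Real.log ‖y‖ / Real.log (p ^ a : ℕ) + 1) ^ 2).sum) →
      (∀ k, TransitiveOnOthers (p ^ a) (P k)) →
      (∀ k l, k ≠ l → TransitiveOver (P k) (P l) ∨ TransitiveOver (P l) (P k)) →
      IsSeparatedFamily p a δ P) ∧
    (∀ (p : ℕ) [Fact p.Prime] (a : ℕ), 0 < a → ∀ (κ : Type) (b : κ → ℤ),
      (∀ k, ¬ (p : ℤ) ∣ b k) → (∀ k, b k ^ 2 < 4 * (p ^ a : ℕ)) →
      (∀ k l, b k = b l ∨ ¬ IsSquare ((b k ^ 2 - 4 * (p ^ a : ℕ)) * (b l ^ 2 - 4 * (p ^ a : ℕ)))) →
      IsSeparatedFamily p a (fun _ : κ => 1 / 2)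
        (fun k => X ^ 2 - C (b k) * X + C (((p ^ a : ℕ) : ℤ)))) ∧
    (∀ (q : ℕ) (κ : Type) (δ : κ → ℝ) (P : κ → ℤ[X]) (w : ℝ), 0 ≤ w → (∀ k, w < 2 * δ k) →
      ∀ ρ : AlgebraicClosure ℚ, NoShortRelation q w δ P ρ) := by
  refine ⟨?_, ?_, ?_, ?_⟩
  · intro p _ a ha κ δ P H w hw
    have hq : 1 < p ^ a := Nat.one_lt_pow ha.ne' (Fact.out : p.Prime).one_lt
    exact ⟨homologyReduces hq (good_separated ha H hw), cycleReduces hq (good_separated ha H hw)⟩
  · intro p _ a ha κ δ P h1 h2 h3 h4 h5 h6 h7
    exact family_of_transitive ha h1 h2 h3 h4 h5 h6 h7
  · intro p _ a ha κ b hb hd h
    exact ell_separated_family ha b hb hd h
  · intro q κ δ P w hw h ρ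
    exact noShortRelation_of_lt hw h ρ

end Pool.Agent.Results.MP_e93a6a_ag.SeparatedByFlipsTimes
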